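import Pool.Agent.Lib.MP_3ec3f9_lc.H33Main

/-!
There is a model of `RCA₀`, `Σ⁰₁` separation, `FS(2)` and `∀ n FS(n)` in which `BΣ⁰₂` fails.
-/

namespace Pool.Agent.Results.MP_3ec3f9_lc.FreeSetNoBSigma2

theorem result : ∃ A : Pool.Agent.FreeSOA.Str,
    A.IsRCA0 ∧ A.Sep1 ∧ A.FreeSet2 ∧ A.FreeSet ∧ ¬ A.BSigma2 :=
  Pool.Agent.FreeSOA.mainN

end Pool.Agent.Results.MP_3ec3f9_lc.FreeSetNoBSigma2
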